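import Mathlib
import Pool.Agent.H211.HY.Stm1
import Pool.Graph.R_seed8.H790R3.RB.TSP
import Pool.Graph.R_seed8.H790R3.RB.TINJL
import Pool.Graph.R_seed8.H790R3.RB.TWR
import Pool.Graph.R_seed8.H790R3.RB.TCHAIN
import Pool.Graph.R_seed8.H790R3.RB.TTOP
import Pool.Graph.R_seed8.H790R3.RB.TPQ

/-!
# HYPC: critical points mapped to critical points: hyperbolic
-/

set_option autoImplicit false

open Topology Filter Metric Set MeasureTheory Polynomial

namespace Pool.Agent.H37.HY211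

open Pool.Agent.H790R3.RB Pool.Agent.H211.HY

/-! ### The Jacobian is not identically zero -/

theorem wr_line {d : ℕ} (hd : 2 ≤ d) (x : CV d) (ζ : ℂ) :
    wr x (ζ, 1) = (d : ℂ) * (((derivative (pol x 0)).eval ζ) * (pol x 1).eval ζ -
      (pol x 0).eval ζ * (derivative (pol x 1)).eval ζ) := by
  obtain ⟨-, -, hjac⟩ := WR d x hd
  have h1 := hjac (ζ, 1) (ζ, 1) (1, 0)
  rw [INJL.euler] at h1
  have hline : HasDerivAt (fun z : ℂ => ((z, 1) : ℂ × ℂ)) (1, 0) ζ :=
    (hasDerivAt_id ζ).prodMk (hasDerivAt_const ζ (1 : ℂ))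
  have hG : DifferentiableAt ℂ (hF x) ((ζ, 1) : ℂ × ℂ) := CHAIN.one_diff x _
  have hcomp : HasDerivAt (fun z : ℂ => hF x (z, 1)) (fderiv ℂ (hF x) (ζ, 1) (1, 0)) ζ :=
    HasFDerivAt.comp_hasDerivAt ζ (f := fun z : ℂ => ((z, 1) : ℂ × ℂ)) hG.hasFDerivAt hline
  have hpol : HasDerivAt (fun z : ℂ => hF x (z, 1))
      ((derivative (pol x 0)).eval ζ, (derivative (pol x 1)).eval ζ) ζ := by
    have h2 := ((pol x 0).hasDerivAt ζ).prodMk ((pol x 1).hasDerivAt ζ)
    have h3 : (fun z : ℂ => hF x (z, 1)) =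
        fun z : ℂ => ((pol x 0).eval z, (pol x 1).eval z) := by
      funext z
      exact PQ.hF_one x z
    rw [h3]
    exact h2
  have h4 := hcomp.unique hpol
  rw [h4, PQ.hF_one] at h1
  simp only [cr, Prod.smul_fst, Prod.smul_snd, smul_eq_mul] at h1
  linear_combination h1

theorem wr_ne {d : ℕ} (hd : 2 ≤ d) (x : CV d) (hx : ND x) : ∃ ζ : ℂ, wr x (ζ, 1) ≠ 0 := by
  by_contra hcon
  push Not at hcon
  obtain ⟨hcop, hdeg⟩ := PQ.part1 (by omega) x hx
  have hd0 : (d : ℂ) ≠ 0 := by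
    have : d ≠ 0 := by omega
    exact_mod_cast this
  have hW : derivative (pol x 0) * pol x 1 = pol x 0 * derivative (pol x 1) := by
    apply Polynomial.funext
    intro ζ
    have h1 := hcon ζ
    rw [wr_line hd] at h1
    have h2 := (mul_eq_zero.1 h1).resolve_left hd0
    rw [eval_mul, eval_mul]
    exact sub_eq_zero.1 h2
  have key : ∀ P : ℂ[X], P ∣ derivative P → P.natDegree = 0 := by
    intro P hP
    by_contra hne
    have h0 : derivative P ≠ 0 := by
      intro h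
      exact hne (Polynomial.derivative_eq_zero.1 h)
    have h1 := Polynomial.natDegree_le_of_dvd hP h0
    have h2 := Polynomial.natDegree_derivative_lt hne
    omega
  have hP : pol x 0 ∣ derivative (pol x 0) := by
    have h1 : pol x 0 ∣ derivative (pol x 0) * pol x 1 := by
      rw [hW]; exact dvd_mul_right _ _
    exact hcop.dvd_of_dvd_mul_right h1
  have hQ : pol x 1 ∣ derivative (pol x 1) := by
    have h1 : pol x 1 ∣ pol x 0 * derivative (pol x 1) := by
      rw [← hW]; exact dvd_mul_left _ _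
    exact hcop.symm.dvd_of_dvd_mul_left h1
  have h0 := key _ hP
  have h1 := key _ hQ
  rw [h0, h1] at hdeg
  simp at hdeg
  omega

/-- the critical points on the sphere -/
def Cri {d : ℕ} (x : CV d) : Set (OnePoint ℂ) := {a | wr x (hc a) = 0}

theorem Cri_finite {d : ℕ} (hd : 2 ≤ d) (x : CV d) (hx : ND x) : (Cri x).Finite := by
  obtain ⟨-, ⟨W, -, hW, -⟩, -⟩ := WR d x hd
  have hW0 : W ≠ 0 := by
    rintro rfl
    obtain ⟨ζ, hζ⟩ := wr_ne hd x hx
    apply hζ
    rw [← hW ζ]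
    simp
  refine Set.Finite.subset (((W.roots.toFinset.finite_toSet).image
    (fun z : ℂ => (z : OnePoint ℂ))).insert (OnePoint.infty : OnePoint ℂ)) ?_
  intro a ha
  induction a using OnePoint.rec with
  | infty => exact Or.inl rfl
  | coe z =>
    right
    refine ⟨z, ?_, rfl⟩
    simp only [Finset.mem_coe, Multiset.mem_toFinset]
    rw [Polynomial.mem_roots hW0]
    have h1 : wr x (hc (z : OnePoint ℂ)) = 0 := ha
    rw [SP.hc_coe] at h1
    show W.eval z = 0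
    rw [hW, h1]

theorem wr_hc_pr {d : ℕ} (hd : 2 ≤ d) (x : CV d) {p : ℂ × ℂ} (hp : p ≠ 0) (h : wr x p = 0) :
    wr x (hc (pr p)) = 0 := by
  obtain ⟨hhom, -, -⟩ := WR d x hd
  have h1 := SP.pr_hc (pr p)
  have h2 : cr (hc (pr p)) p = 0 := (SP.pr_eq_iff h1.2 hp).1 h1.1
  obtain ⟨a, -, ha⟩ := (cr_eq_zero_iff h1.2 hp).1 h2
  rw [ha, hhom, h, mul_zero]

/-! ### Superattracting cycles -/

theorem superatt {d : ℕ} (hd : 2 ≤ d) (x : CV d) (hx : ND x) {p : ℂ × ℂ} (hp : p ≠ 0)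
    (hw : wr x p = 0) {n : ℕ} (hn : 1 ≤ n) (hper : cr ((hF x)^[n] p) p = 0) :
    ∃ U ∈ 𝓝 (pr p), ∀ w ∈ U,
      Tendsto (fun k : ℕ => (sp x)^[n * k] w) atTop (𝓝 (pr p)) := by
  obtain ⟨hcont, hsp, hprcr, hhc, hprc⟩ := SP d x (by omega) hx
  obtain ⟨e, he, hU⟩ := INJL.dir hp
  set G : ℂ × ℂ → ℂ × ℂ := fun q => (hF x)^[n] q with hG
  have hGne : ∀ q, q ≠ 0 → G q ≠ 0 := fun q hq => hx.iter_ne n hq
  obtain ⟨lam, hlam, hGp⟩ := (cr_eq_zero_iff (hGne p hp) hp).1 hper
  set D : ℂ × ℂ := fderiv ℂ G p e with hD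
  -- the derivative is parallel to `p`
  have hDp : cr p D = 0 := by
    have h1 := CHAIN.iter_cr WR hd x n p p e
    rw [CHAIN.euler, cr_smul_left] at h1
    have h2 : (∏ m ∈ Finset.range n, wr x ((hF x)^[m] p)) = 0 := by
      refine Finset.prod_eq_zero (Finset.mem_range.2 (show 0 < n by omega)) ?_
      simpa using hw
    rw [h2, zero_mul] at h1
    have h3 : ((d ^ n : ℕ) : ℂ) ≠ 0 := by
      have : d ^ n ≠ 0 := pow_ne_zero _ (by omega)
      exact_mod_cast this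
    have h4 : cr (G p) D = 0 := (mul_eq_zero.1 h1).resolve_left h3
    rw [hGp, cr_smul_left] at h4
    exact (mul_eq_zero.1 h4).resolve_left hlam
  have hline : HasDerivAt (fun t : ℂ => p + t • e) e 0 := (INJL.line p e 0).hasDerivAt
  have hGd : HasFDerivAt G (fderiv ℂ G p) (p + (0 : ℂ) • e) := by
    have := (CHAIN.iter_diff x n p).hasFDerivAt
    simpa using this
  have hcomp : HasDerivAt (fun t : ℂ => G (p + t • e)) D 0 :=
    hGd.comp_hasDerivAt (0 : ℂ) hline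
  have hc1 : HasDerivAt (fun t : ℂ => (G (p + t • e)).1) D.1 0 := by
    have h := HasFDerivAt.comp_hasDerivAt (0 : ℂ)
      ((ContinuousLinearMap.fst ℂ ℂ ℂ).hasFDerivAt (x := G (p + (0 : ℂ) • e))) hcomp
    exact h
  have hc2 : HasDerivAt (fun t : ℂ => (G (p + t • e)).2) D.2 0 := by
    have h := HasFDerivAt.comp_hasDerivAt (0 : ℂ)
      ((ContinuousLinearMap.snd ℂ ℂ ℂ).hasFDerivAt (x := G (p + (0 : ℂ) • e))) hcomp
    exact h
  have hφ : HasDerivAt (fun t : ℂ => cr p (G (p + t • e))) 0 0 := by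
    have h := (hc2.const_mul p.1).sub (hc1.const_mul p.2)
    have h2 : p.1 * D.2 - p.2 * D.1 = 0 := hDp
    rw [h2] at h
    exact h
  have hψ : ContinuousAt (fun t : ℂ => cr (G (p + t • e)) e) 0 := by
    have h := (hc1.continuousAt.mul (continuousAt_const (y := e.2))).sub
      (hc2.continuousAt.mul (continuousAt_const (y := e.1)))
    exact h
  have hψ0 : cr (G (p + (0 : ℂ) • e)) e = lam * cr p e := by
    rw [zero_smul, add_zero, hGp, cr_smul_left]
  set b : ℝ := ‖lam * cr p e‖ with hb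
  have hb0 : 0 < b := norm_pos_iff.2 (mul_ne_zero hlam he)
  have hφ0 : cr p (G (p + (0 : ℂ) • e)) = 0 := by
    rw [zero_smul, add_zero, hGp, cr_smul_right, cr_self, mul_zero]
  have ev1 : ∀ᶠ t : ℂ in 𝓝 0, ‖cr p (G (p + t • e))‖ ≤ b / 4 * ‖t‖ := by
    have h1 := hφ.isLittleO.def (show (0 : ℝ) < b / 4 by positivity)
    filter_upwards [h1] with t ht
    rw [hφ0] at ht
    simpa using ht
  have ev2 : ∀ᶠ t : ℂ in 𝓝 0, b / 2 < ‖cr (G (p + t • e)) e‖ := by
    have h1 : Tendsto (fun t : ℂ => ‖cr (G (p + t • e)) e‖) (𝓝 0) (𝓝 b) := by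
      have h2 := hψ.norm.tendsto
      rw [hψ0] at h2
      exact h2
    exact h1.eventually (lt_mem_nhds (by linarith))
  obtain ⟨δ, hδ, hball⟩ := Metric.eventually_nhds_iff_ball.1 (ev1.and ev2)
  have hq0 : ∀ t : ℂ, p + t • e ≠ 0 := by
    intro t h
    have h1 : cr (p + t • e) e = cr p e := by
      simp only [cr, Prod.fst_add, Prod.snd_add, Prod.smul_fst, Prod.smul_snd, smul_eq_mul]
      ring
    rw [h] at h1
    apply he
    rw [← h1]
    simp [cr]
  -- one step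
  have step : ∀ t : ℂ, t ∈ ball (0 : ℂ) δ → ∃ t' : ℂ, ‖t'‖ ≤ ‖t‖ / 2 ∧
      (sp x)^[n] (pr (p + t • e)) = pr (p + t' • e) := by
    intro t ht
    obtain ⟨h1, h2⟩ := hball t ht
    have hne : cr (G (p + t • e)) e ≠ 0 := by
      intro h
      rw [h, norm_zero] at h2
      linarith
    refine ⟨cr p (G (p + t • e)) / cr (G (p + t • e)) e, ?_, ?_⟩
    · rw [norm_div, div_le_iff₀ (norm_pos_iff.2 hne)]
      have h3 : ‖t‖ / 2 * (b / 2) ≤ ‖t‖ / 2 * ‖cr (G (p + t • e)) e‖ :=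
        mul_le_mul_of_nonneg_left h2.le (by positivity)
      linarith
    · rw [hsp _ (hq0 t) n]
      have h5 : (hF x)^[n] (p + t • e) ≠ 0 := hGne _ (hq0 t)
      rw [hprcr _ _ h5 (hq0 _)]
      have h6 : (hF x)^[n] (p + t • e) = G (p + t • e) := rfl
      rw [h6]
      set Q : ℂ × ℂ := G (p + t • e) with hQ
      have h7 : cr Q (p + (cr p Q / cr Q e) • e) = cr Q p + cr p Q / cr Q e * cr Q e := by
        simp only [cr, Prod.fst_add, Prod.snd_add, Prod.smul_fst, Prod.smul_snd, smul_eq_mul]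
        ring
      rw [h7, div_mul_cancel₀ _ hne, cr_comm Q p]
      ring
  have steps : ∀ (k : ℕ) (t : ℂ), t ∈ ball (0 : ℂ) δ → ∃ t' : ℂ, ‖t'‖ ≤ ‖t‖ * (1 / 2) ^ k ∧
      (sp x)^[n * k] (pr (p + t • e)) = pr (p + t' • e) := by
    intro k
    induction k with
    | zero => exact fun t _ => ⟨t, by simp, by simp⟩
    | succ k ih =>
      intro t ht
      obtain ⟨t', h1, h2⟩ := ih t ht
      have ht' : t' ∈ ball (0 : ℂ) δ := by
        rw [mem_ball, dist_zero_right] at ht ⊢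
        have h3 : (1 / 2 : ℝ) ^ k ≤ 1 := pow_le_one₀ (by norm_num) (by norm_num)
        have h4 := mul_le_mul_of_nonneg_left h3 (norm_nonneg t)
        linarith
      obtain ⟨t'', h3, h4⟩ := step t' ht'
      refine ⟨t'', ?_, ?_⟩
      · rw [pow_succ]
        linarith
      · have e1 : n * (k + 1) = n + n * k := by ring
        rw [e1, Function.iterate_add_apply, h2, h4]
  refine ⟨_, hU δ hδ, ?_⟩
  rintro w ⟨t, ht, rfl⟩
  choose t' h1 h2 using fun k => steps k t ht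
  have h3 : Tendsto t' atTop (𝓝 0) := by
    refine squeeze_zero_norm h1 ?_
    have h4 := (tendsto_pow_atTop_nhds_zero_of_lt_one (r := (1 / 2 : ℝ)) (by norm_num)
      (by norm_num)).const_mul ‖t‖
    rwa [mul_zero] at h4
  have h4 : ContinuousAt (fun t : ℂ => pr (p + t • e)) 0 := by
    have h5 : ContinuousAt pr (p + (0 : ℂ) • e) := SP.continuousAt_pr (hq0 0)
    exact ContinuousAt.comp (f := fun t : ℂ => p + t • e) (g := pr) (x := (0 : ℂ)) h5
      hline.continuousAt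
  have h5 : Tendsto (fun t : ℂ => pr (p + t • e)) (𝓝 0) (𝓝 (pr p)) := by
    have := h4.tendsto
    rwa [zero_smul, add_zero] at this
  refine (h5.comp h3).congr fun k => ?_
  exact (h2 k).symm

/-! ### The theorem -/

/-- an orbit which reaches an attracting point after `l` steps -/
theorem reach (f : OnePoint ℂ → OnePoint ℂ) (hf : Continuous f) (c b : OnePoint ℂ) (l P : ℕ)
    (hP : 1 ≤ P) (hb : f^[P] b = b) (hl : f^[l] c = b)
    (hatt : ∃ U ∈ 𝓝 b, ∀ w ∈ U, Tendsto (fun k : ℕ => f^[P * k] w) atTop (𝓝 b)) :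
    ∃ z : OnePoint ℂ, ∃ n : ℕ, 0 < n ∧ f^[n] z = z ∧
      (∃ U ∈ 𝓝 z, ∀ w ∈ U, Tendsto (fun k : ℕ => f^[n * k] w) atTop (𝓝 z)) ∧
      Tendsto (fun k : ℕ => f^[n * k] c) atTop (𝓝 z) := by
  obtain ⟨U, hU, hUt⟩ := hatt
  have hfc : ∀ N : ℕ, Continuous f^[N] := fun N => hf.iterate N
  have hbU : b ∈ U := mem_of_mem_nhds hU
  have hA : ∀ w : OnePoint ℂ, f^[l] w ∈ U →
      Tendsto (fun j : ℕ => f^[P * j] w) atTop (𝓝 (f^[l * (P - 1)] b)) := by
    intro w hw
    have h1 := hUt _ hw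
    have h2 : Tendsto (fun j : ℕ => f^[l * (P - 1)] (f^[P * j] (f^[l] w))) atTop
        (𝓝 (f^[l * (P - 1)] b)) := ((hfc (l * (P - 1))).tendsto b).comp h1
    have h3 : Tendsto (fun j : ℕ => j - l) atTop atTop := tendsto_sub_atTop_nat l
    have h4 := h2.comp h3
    refine h4.congr' ?_
    filter_upwards [eventually_ge_atTop l] with j hj
    show f^[l * (P - 1)] (f^[P * (j - l)] (f^[l] w)) = f^[P * j] w
    rw [← Function.iterate_add_apply, ← Function.iterate_add_apply]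
    congr 1
    obtain ⟨i, rfl⟩ := Nat.exists_eq_add_of_le hj
    obtain ⟨Q, hQ⟩ := Nat.exists_eq_add_of_le hP
    rw [hQ, Nat.add_sub_cancel_left, Nat.add_sub_cancel_left]
    ring
  have hb' : ∀ j : ℕ, f^[P * j] b = b := by
    intro j
    rw [Function.iterate_mul]
    exact Function.iterate_fixed hb j
  refine ⟨f^[l * (P - 1)] b, P, hP, ?_, ?_, hA c (by rw [hl]; exact hbU)⟩
  · rw [← Function.iterate_add_apply, add_comm, Function.iterate_add_apply, hb]
  · refine ⟨f^[l] ⁻¹' U, ?_, fun w hw => hA w hw⟩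
    refine (hfc l).continuousAt.preimage_mem_nhds ?_
    have h1 : f^[l] (f^[l * (P - 1)] b) = b := by
      rw [← Function.iterate_add_apply]
      have h2 : l + l * (P - 1) = P * l := by
        obtain ⟨Q, hQ⟩ := Nat.exists_eq_add_of_le hP
        rw [hQ, Nat.add_sub_cancel_left]
        ring
      rw [h2, hb']
    rw [h1]
    exact hU

/-- in a finite set `S` in which every point is mapped into `S` by a positive iterate, every point
is mapped to a periodic point -/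
theorem chain {α : Type} (f : α → α) (S : Set α) (hS : S.Finite)
    (h : ∀ c ∈ S, ∃ n : ℕ, 1 ≤ n ∧ f^[n] c ∈ S) (c : α) (hc : c ∈ S) :
    ∃ l P : ℕ, 1 ≤ P ∧ f^[l] c ∈ S ∧ f^[P] (f^[l] c) = f^[l] c := by
  have : Finite S := hS
  choose N hN1 hN2 using h
  let T : S → S := fun a => ⟨f^[N a.1 a.2] a.1, hN2 a.1 a.2⟩
  have hT : ∀ (i : ℕ) (a : S), ∃ L : ℕ, i ≤ L ∧ f^[L] a.1 = (T^[i] a).1 := by
    intro i
    induction i with
    | zero => exact fun a => ⟨0, le_rfl, rfl⟩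
    | succ i ih =>
      intro a
      obtain ⟨L, h1, h2⟩ := ih a
      have h3 := hN1 (T^[i] a).1 (T^[i] a).2
      refine ⟨N (T^[i] a).1 (T^[i] a).2 + L, by omega, ?_⟩
      rw [Function.iterate_add_apply, h2, Function.iterate_succ_apply']
  obtain ⟨i, j, hij, hEq⟩ := Finite.exists_ne_map_eq_of_infinite
    (fun i : ℕ => T^[i] (⟨c, hc⟩ : S))
  wlog hlt : i < j generalizing i j
  · exact this j i hij.symm hEq.symm (by omega)
  obtain ⟨l, -, hl⟩ := hT i ⟨c, hc⟩
  obtain ⟨P, hP, hP2⟩ := hT (j - i) (T^[i] ⟨c, hc⟩)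
  refine ⟨l, P, by omega, ?_, ?_⟩
  · rw [hl]
    exact (T^[i] ⟨c, hc⟩).2
  · rw [hl, hP2, ← Function.iterate_add_apply]
    have h1 : j - i + i = j := by omega
    rw [h1]
    exact congrArg Subtype.val hEq.symm

theorem t_HYPC : S_HYPC := by
  intro d x hd hx hcr c hcrit
  obtain ⟨hcont, hsp, hprcr, hhc, hprc⟩ := SP d x (by omega) hx
  have hfin := Cri_finite hd x hx
  have hcS : c ∈ Cri x := by
    by_contra hne
    obtain ⟨U, hU, hinj⟩ := INJL SP WR d x (hc c) hd hx (hhc c).2 hne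
    rw [(hhc c).1] at hU
    exact hcrit ⟨U, hU, hinj⟩
  have hmap : ∀ a ∈ Cri x, ∃ n : ℕ, 1 ≤ n ∧ (sp x)^[n] a ∈ Cri x := by
    intro a ha
    obtain ⟨n, hn, c', hc'0, hc'w, hc'c⟩ := hcr (hc a) (hhc a).2 ha
    refine ⟨n, hn, ?_⟩
    have h1 : (sp x)^[n] a = pr ((hF x)^[n] (hc a)) := by
      rw [← hsp (hc a) (hhc a).2 n, (hhc a).1]
    have h2 : pr ((hF x)^[n] (hc a)) = pr c' :=
      (hprcr _ _ (hx.iter_ne n (hhc a).2) hc'0).2 hc'c
    show wr x (hc ((sp x)^[n] a)) = 0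
    rw [h1, h2]
    exact wr_hc_pr hd x hc'0 hc'w
  obtain ⟨l, P, hP, hlS, hper⟩ := chain (sp x) (Cri x) hfin hmap c hcS
  refine reach (sp x) hcont c ((sp x)^[l] c) l P hP hper rfl ?_
  set b := (sp x)^[l] c with hb
  have hw : wr x (hc b) = 0 := hlS
  have h1 : cr ((hF x)^[P] (hc b)) (hc b) = 0 := by
    rw [← hprcr _ _ (hx.iter_ne P (hhc b).2) (hhc b).2, ← hsp _ (hhc b).2 P, (hhc b).1]
    exact hper
  have h2 := superatt hd x hx (hhc b).2 hw hP h1
  rw [(hhc b).1] at h2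
  exact h2

end Pool.Agent.H37.HY211
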